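import Mathlib
import Pool.Agent.W890.SF.Stm2
import Pool.Agent.W976.SAM.Bas
import Pool.Agent.W584.SAM.ADD
import Pool.Agent.W883.SAM.Key
import Pool.Agent.W503.SAM.Ind
import Pool.Agent.W816.SAM.Uni
import Pool.Agent.W597.SAM.T2G

/-!
# Inverse-weighted lottery: distribution of a sum of independent two-point variables by recursion
-/

set_option autoImplicit false

namespace Pool.Agent.Q258.LT

open Finset Filter Topology Pool.Agent.W890.SF

theorem T2G : S_T2G :=
  Pool.Agent.W597.SAM.t2g Pool.Agent.W976.SAM.bas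
    (Pool.Agent.W503.SAM.Ind.ind Pool.Agent.W976.SAM.bas Pool.Agent.W584.SAM.add
      Pool.Agent.W883.SAM.key) Pool.Agent.W816.SAM.Uni.uni

/-- `P(Z < c)` for a list of independent items `(b, q)` (value `b` with probability `q`, else 0) -/
noncomputable def G : List (ℝ × ℝ) → ℝ → ℝ
  | [], c => if 0 < c then 1 else 0
  | p :: L, c => (1 - p.2) * G L c + p.2 * G L (c - p.1)

/-- valid items -/
def Ok (L : List (ℝ × ℝ)) : Prop := ∀ p ∈ L, 0 ≤ p.2 ∧ p.2 ≤ 1

theorem Ok.tail {p : ℝ × ℝ} {L : List (ℝ × ℝ)} (h : Ok (p :: L)) : Ok L :=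
  fun r hr => h r (List.mem_cons_of_mem _ hr)

theorem Ok.head {p : ℝ × ℝ} {L : List (ℝ × ℝ)} (h : Ok (p :: L)) : 0 ≤ p.2 ∧ p.2 ≤ 1 :=
  h p List.mem_cons_self

theorem G_mono : ∀ (L : List (ℝ × ℝ)), Ok L → ∀ c c' : ℝ, c ≤ c' → G L c ≤ G L c'
  | [], _, c, c', h => by
      simp only [G]
      split_ifs with h1 h2
      · exact le_refl _
      · exact absurd (lt_of_lt_of_le h1 h) h2
      · exact zero_le_one
      · exact le_refl _
  | p :: L, hL, c, c', h => by
      simp only [G]
      have h1 := G_mono L hL.tail c c' h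
      have h2 := G_mono L hL.tail (c - p.1) (c' - p.1) (by linarith)
      have := hL.head
      nlinarith

/-- replacing `K` copies of an item by one item which is present if at least one of them is, with a
smaller value, and the tail by a better one -/
theorem G_rep (L1 L2 : List (ℝ × ℝ)) (h2 : Ok L2)
    (h12 : ∀ c, G L1 c ≤ G L2 c) (b a q : ℝ) (ha : 0 ≤ a) (hab : a ≤ b) (hq0 : 0 ≤ q) (hq1 : q ≤ 1) :
    ∀ (K : ℕ) (c : ℝ), G (List.replicate K (b, q) ++ L1) c ≤ G ((a, 1 - (1 - q) ^ K) :: L2) c
  | 0, c => by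
      simp only [List.replicate_zero, List.nil_append, G, pow_zero, sub_self, sub_zero, one_mul,
        zero_mul, add_zero]
      exact h12 c
  | K + 1, c => by
      have ih := G_rep L1 L2 h2 h12 b a q ha hab hq0 hq1 K
      have e1 : G (List.replicate (K + 1) (b, q) ++ L1) c =
          (1 - q) * G (List.replicate K (b, q) ++ L1) c +
            q * G (List.replicate K (b, q) ++ L1) (c - b) := by
        rw [List.replicate_succ, List.cons_append]
        simp only [G]
      rw [e1]
      have i1 := ih c
      have i2 := ih (c - b)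
      simp only [G, sub_sub_cancel] at i1 i2 ⊢
      have m1 := G_mono L2 h2 (c - b) (c - a) (by linarith)
      have m2 := G_mono L2 h2 (c - b - a) (c - a) (by linarith)
      have hp0 : 0 ≤ (1 - q) ^ K := pow_nonneg (by linarith) K
      have hp1 : (1 - q) ^ K ≤ 1 := pow_le_one₀ (by linarith) (by linarith)
      rw [pow_succ]
      generalize (1 - q) ^ K = Q at *
      have j1 : (1 - q) * G (List.replicate K (b, q) ++ L1) c ≤
          (1 - q) * (Q * G L2 c + (1 - Q) * G L2 (c - a)) :=
        mul_le_mul_of_nonneg_left i1 (by linarith)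
      have j2 : q * G (List.replicate K (b, q) ++ L1) (c - b) ≤ q * G L2 (c - a) := by
        refine mul_le_mul_of_nonneg_left (i2.trans ?_) hq0
        nlinarith
      linarith

/-- relation with `PU` -/
theorem PU_insert {ι : Type} [DecidableEq ι] (b q : ι → ℝ) (c : ℝ) (S : Finset ι) (x : ι)
    (hx : x ∉ S) : PU b q c (insert x S) = (1 - q x) * PU b q c S + q x * PU b q (c - b x) S := by
  unfold PU
  rw [Finset.sum_powerset_insert hx, Finset.mul_sum, Finset.mul_sum]
  congr 1
  · refine Finset.sum_congr rfl fun ω hω => ?_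
    have hω' : ω ⊆ S := Finset.mem_powerset.1 hω
    have hxω : x ∉ ω := fun h => hx (hω' h)
    have e : insert x S \ ω = insert x (S \ ω) := Finset.insert_sdiff_of_notMem _ hxω
    have hx' : x ∉ S \ ω := fun h => hx (Finset.mem_sdiff.1 h).1
    simp only [Wt, e, Finset.prod_insert hx']
    split_ifs
    · ring
    · ring
  · refine Finset.sum_congr rfl fun ω hω => ?_
    have hω' : ω ⊆ S := Finset.mem_powerset.1 hω
    have hxω : x ∉ ω := fun h => hx (hω' h)
    have e : insert x S \ insert x ω = S \ ω := by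
      ext y
      simp only [Finset.mem_sdiff, Finset.mem_insert, not_or]
      constructor
      · rintro ⟨h1 | h1, h2, h3⟩
        · exact absurd h1 h2
        · exact ⟨h1, h3⟩
      · rintro ⟨h1, h3⟩
        exact ⟨Or.inr h1, fun h => hx (h ▸ h1), h3⟩
    rw [Finset.sum_insert hxω]
    have e2 : (b x + ∑ i ∈ ω, b i < c) ↔ (∑ i ∈ ω, b i < c - b x) := by
      constructor <;> intro h <;> linarith
    simp only [Wt, e, Finset.prod_insert hxω, e2]
    split_ifs
    · ring
    · ring

theorem PU_list {ι : Type} [DecidableEq ι] (b q : ι → ℝ) : ∀ (l : List ι), l.Nodup → ∀ c : ℝ,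
    PU b q c l.toFinset = G (l.map (fun i => (b i, q i))) c
  | [], _, c => by
      simp only [List.toFinset_nil, PU, Finset.powerset_empty, Finset.sum_singleton, Finset.sum_empty,
        Wt, Finset.prod_empty, Finset.sdiff_empty, mul_one, List.map_nil, G]
  | x :: l, h, c => by
      rw [List.nodup_cons] at h
      rw [List.toFinset_cons, PU_insert b q c _ x (by simpa using h.1),
        PU_list b q l h.2, PU_list b q l h.2]
      simp only [List.map_cons, G]

theorem PU_fin (r : ℕ) (b q : Fin r → ℝ) (c : ℝ) :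
    PU b q c univ = G ((List.finRange r).map (fun i => (b i, q i))) c := by
  rw [← PU_list b q (List.finRange r) (List.nodup_finRange r) c]
  congr 1
  ext i
  simp

/-- the two-point inequality for lists -/
theorem list_bound (L : List (ℝ × ℝ)) (x : ℝ) (hr : 1 ≤ L.length) (hx0 : 0 < x) (hx1 : x < 1)
    (hrx : L.length * x < 1) (hL : ∀ p ∈ L, 0 < p.1 ∧ 0 ≤ p.2 ∧ p.2 < 1 ∧ p.1 * p.2 = x) :
    min ((1 - x) ^ L.length) ((1 - L.length * x) / (1 - (L.length - 1) * x)) ≤ G L 1 := by
  have key := T2G L.length hr x hx0 hx1 hrx (fun _ => 0) (fun i => (L.get i).1) (fun i => (L.get i).2)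
    { a0 := fun i => le_refl _
      b0 := fun i => (hL _ (List.get_mem L i)).1
      q0 := fun i => (hL _ (List.get_mem L i)).2.1
      q1 := fun i => (hL _ (List.get_mem L i)).2.2.1
      mean := fun i => by
        have := (hL _ (List.get_mem L i)).2.2.2
        linarith }
  refine key.trans (le_of_eq ?_)
  unfold PP
  rw [Finset.sum_const_zero, sub_zero, PU_fin]
  congr 1
  have : (List.finRange L.length).map (fun i => ((L.get i).1, (L.get i).2)) =
      (List.finRange L.length).map L.get := by
    refine List.map_congr_left fun i _ => ?_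
    rfl
  rw [this]
  exact List.map_get_finRange L

end Pool.Agent.Q258.LT
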