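import Mathlib
import Pool.Agent.Q258.LT.G

/-!
# Inverse-weighted lottery: the bound for exponential presence probabilities
-/

set_option autoImplicit false

namespace Pool.Agent.Q258.LT

open Finset Filter Topology Pool.Agent.W890.SF

/-- the items: value `α`, present with probability `1 - exp (-τ/α)` -/
noncomputable def L0 (τ : ℝ) (A : List ℝ) : List (ℝ × ℝ) :=
  A.map (fun α => (α, 1 - Real.exp (-(τ / α))))

/-- the refined list -/
noncomputable def RK (τ : ℝ) (K : ℕ) : List ℝ → List (ℝ × ℝ)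
  | [] => []
  | α :: A => List.replicate K (τ / K / (1 - Real.exp (-(τ / (α * K)))),
      1 - Real.exp (-(τ / (α * K)))) ++ RK τ K A

theorem RK_length (τ : ℝ) (K : ℕ) : ∀ A : List ℝ, (RK τ K A).length = A.length * K
  | [] => by simp [RK]
  | α :: A => by
      rw [RK, List.length_append, List.length_replicate, RK_length τ K A, List.length_cons]
      ring

theorem exp_facts {u : ℝ} (hu : 0 < u) : 0 < 1 - Real.exp (-u) ∧ 1 - Real.exp (-u) < 1 ∧
    1 - Real.exp (-u) ≤ u := by
  have h1 : Real.exp (-u) < 1 := by rw [← Real.exp_zero]; exact Real.exp_lt_exp.2 (by linarith)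
  have h2 := Real.exp_pos (-u)
  have h3 := Real.add_one_le_exp (-u)
  exact ⟨by linarith, by linarith, by linarith⟩

theorem L0_ok (τ : ℝ) (hτ : 0 < τ) (A : List ℝ) (hA : ∀ α ∈ A, 0 < α) : Ok (L0 τ A) := by
  intro p hp
  obtain ⟨α, hα, rfl⟩ := List.mem_map.1 hp
  have := exp_facts (u := τ / α) (div_pos hτ (hA α hα))
  exact ⟨this.1.le, this.2.1.le⟩

theorem RK_le (τ : ℝ) (hτ : 0 < τ) (K : ℕ) (hK : 1 ≤ K) : ∀ (A : List ℝ), (∀ α ∈ A, 0 < α) →
    ∀ c, G (RK τ K A) c ≤ G (L0 τ A) c
  | [], _, c => by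
      simp only [RK, L0, List.map_nil]
      exact le_refl _
  | α :: A, hA, c => by
      have hα : 0 < α := hA α List.mem_cons_self
      have hA' : ∀ β ∈ A, 0 < β := fun β hβ => hA β (List.mem_cons_of_mem _ hβ)
      have hK0 : (0 : ℝ) < K := by exact_mod_cast hK
      have hf := exp_facts (u := τ / (α * K)) (by positivity)
      have h1 := G_rep (RK τ K A) (L0 τ A) (L0_ok τ hτ A hA') (RK_le τ hτ K hK A hA')
        (τ / K / (1 - Real.exp (-(τ / (α * K))))) α (1 - Real.exp (-(τ / (α * K)))) hα.le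
        (by
          rw [le_div_iff₀ hf.1]
          calc α * (1 - Real.exp (-(τ / (α * K)))) ≤ α * (τ / (α * K)) :=
                mul_le_mul_of_nonneg_left hf.2.2 hα.le
            _ = τ / K := by field_simp) hf.1.le hf.2.1.le K c
      have e : 1 - (1 - (1 - Real.exp (-(τ / (α * K))))) ^ K = 1 - Real.exp (-(τ / α)) := by
        rw [sub_sub_cancel, ← Real.exp_nat_mul]
        congr 2
        field_simp
      rw [e] at h1
      simpa only [RK, L0, List.map_cons] using h1

theorem RK_items (τ : ℝ) (hτ : 0 < τ) (K : ℕ) (hK : 1 ≤ K) : ∀ (A : List ℝ), (∀ α ∈ A, 0 < α) →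
    ∀ p ∈ RK τ K A, 0 < p.1 ∧ 0 ≤ p.2 ∧ p.2 < 1 ∧ p.1 * p.2 = τ / K
  | [], _, p, hp => by simp [RK] at hp
  | α :: A, hA, p, hp => by
      have hα : 0 < α := hA α List.mem_cons_self
      have hA' : ∀ β ∈ A, 0 < β := fun β hβ => hA β (List.mem_cons_of_mem _ hβ)
      have hK0 : (0 : ℝ) < K := by exact_mod_cast hK
      rw [RK, List.mem_append] at hp
      rcases hp with hp | hp
      · have hf := exp_facts (u := τ / (α * K)) (by positivity)
        rw [List.eq_of_mem_replicate hp]
        refine ⟨div_pos (by positivity) hf.1, hf.1.le, hf.2.1, ?_⟩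
        exact div_mul_cancel₀ _ hf.1.ne'
      · exact RK_items τ hτ K hK A hA' p hp

theorem list_exp_lt (τ : ℝ) (hτ : 0 < τ) (A : List ℝ) (hA : ∀ α ∈ A, 0 < α) (hn : 1 ≤ A.length)
    (h : (A.length : ℝ) * τ < 1) : Real.exp (-(A.length * τ)) ≤ G (L0 τ A) 1 := by
  obtain ⟨n, hn'⟩ : ∃ n : ℕ, n = A.length := ⟨_, rfl⟩
  rw [← hn'] at h hn ⊢
  have hn0 : (1 : ℝ) ≤ n := by exact_mod_cast hn
  have hτ1 : τ < 1 := by nlinarith
  have key : ∀ᶠ K : ℕ in atTop, min (((1 + (-τ) / (K : ℝ)) ^ K) ^ n)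
      ((1 - n * τ) / (1 - n * τ + τ / K)) ≤ G (L0 τ A) 1 := by
    filter_upwards [eventually_ge_atTop 1] with K hK
    have hK0 : (0 : ℝ) < K := by exact_mod_cast hK
    have hK1 : (1 : ℝ) ≤ K := by exact_mod_cast hK
    have hlen : (RK τ K A).length = n * K := by rw [RK_length, hn']
    have hx1 : τ / K < 1 := by
      rw [div_lt_one hK0]
      linarith
    have e1 : ((n * K : ℕ) : ℝ) * (τ / K) = n * τ := by
      push_cast
      field_simp
    have h1 := list_bound (RK τ K A) (τ / K) (by rw [hlen]; exact Nat.mul_pos hn hK)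
      (by positivity) hx1 (by rw [hlen, e1]; exact h) (RK_items τ hτ K hK A hA)
    rw [hlen, sub_mul, e1, one_mul] at h1
    refine le_trans (le_of_eq ?_) (h1.trans (RK_le τ hτ K hK A hA 1))
    congr 1
    · rw [← pow_mul, mul_comm K n, neg_div, ← sub_eq_add_neg]
    · congr 1
      ring
  have t1 : Tendsto (fun K : ℕ => ((1 + (-τ) / (K : ℝ)) ^ K) ^ n) atTop
      (𝓝 ((Real.exp (-τ)) ^ n)) := (Real.tendsto_one_add_div_pow_exp (-τ)).pow n
  have t2 : Tendsto (fun K : ℕ => (1 - n * τ) / (1 - n * τ + τ / K)) atTop (𝓝 1) := by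
    have h2 : Tendsto (fun K : ℕ => τ / (K : ℝ)) atTop (𝓝 0) :=
      tendsto_const_div_atTop_nhds_zero_nat τ
    have h3 : Tendsto (fun K : ℕ => 1 - n * τ + τ / (K : ℝ)) atTop (𝓝 (1 - n * τ + 0)) :=
      h2.const_add _
    rw [add_zero] at h3
    have h4 : (1 - n * τ) ≠ 0 := by linarith
    have h5 := (tendsto_const_nhds (x := (1 - n * τ)) (f := (atTop : Filter ℕ))).div h3 h4
    rwa [div_self h4] at h5
  have t3 := t1.min t2
  have e3 : min ((Real.exp (-τ)) ^ n) 1 = Real.exp (-(n * τ)) := by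
    rw [← Real.exp_nat_mul, min_eq_left]
    · congr 1
      ring
    · rw [Real.exp_le_one_iff]
      nlinarith
  rw [e3] at t3
  exact le_of_tendsto t3 key

theorem G_cont : ∀ (A : List ℝ) (c : ℝ), Continuous (fun τ : ℝ => G (L0 τ A) c)
  | [], c => by
      simp only [L0, List.map_nil]
      exact continuous_const
  | α :: A, c => by
      have h1 := G_cont A c
      have h2 := G_cont A (c - α)
      simp only [L0, List.map_cons, G] at h1 h2 ⊢
      have h3 : Continuous (fun τ : ℝ => Real.exp (-(τ / α))) :=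
        Real.continuous_exp.comp ((continuous_id.div_const α).neg)
      exact ((continuous_const.sub (continuous_const.sub h3)).mul h1).add
        ((continuous_const.sub h3).mul h2)

theorem list_exp (τ : ℝ) (hτ : 0 < τ) (A : List ℝ) (hA : ∀ α ∈ A, 0 < α) (hn : 1 ≤ A.length)
    (h : (A.length : ℝ) * τ ≤ 1) : Real.exp (-(A.length * τ)) ≤ G (L0 τ A) 1 := by
  have hn0 : (0 : ℝ) < A.length := by exact_mod_cast hn
  have c1 : Tendsto (fun s : ℝ => Real.exp (-(A.length * s))) (𝓝[<] τ)
      (𝓝 (Real.exp (-(A.length * τ)))) := by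
    have : Continuous (fun s : ℝ => Real.exp (-(A.length * s))) := by fun_prop
    exact (this.tendsto τ).mono_left nhdsWithin_le_nhds
  have c2 : Tendsto (fun s : ℝ => G (L0 s A) 1) (𝓝[<] τ) (𝓝 (G (L0 τ A) 1)) :=
    ((G_cont A 1).tendsto τ).mono_left nhdsWithin_le_nhds
  refine le_of_tendsto_of_tendsto c1 c2 ?_
  filter_upwards [Ioo_mem_nhdsLT hτ] with s hs
  refine list_exp_lt s hs.1 A hA hn ?_
  have := mul_lt_mul_of_pos_left hs.2 hn0
  linarith

/-- for `Fin n`-indexed data and threshold `c` -/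
theorem fin_exp (n : ℕ) (hn : 1 ≤ n) (a : Fin n → ℝ) (ha : ∀ i, 0 < a i) (c t : ℝ) (hc : 0 < c)
    (ht : 0 < t) (h : n * t ≤ c) :
    Real.exp (-(n * t / c)) ≤ ∑ S : Finset (Fin n), if ∑ i ∈ S, a i < c then
      (∏ i ∈ S, (1 - Real.exp (-(t / a i)))) * ∏ i ∈ Sᶜ, Real.exp (-(t / a i)) else 0 := by
  have h1 := list_exp (t / c) (div_pos ht hc) ((List.finRange n).map (fun i => a i / c))
    (by
      intro α hα
      obtain ⟨i, _, rfl⟩ := List.mem_map.1 hα
      exact div_pos (ha i) hc)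
    (by simpa using hn)
    (by
      rw [List.length_map, List.length_finRange, mul_div_assoc', div_le_one hc]
      exact h)
  rw [List.length_map, List.length_finRange, mul_div_assoc'] at h1
  refine h1.trans (le_of_eq ?_)
  have e1 : L0 (t / c) ((List.finRange n).map (fun i => a i / c)) =
      (List.finRange n).map (fun i => (a i / c, 1 - Real.exp (-(t / a i)))) := by
    unfold L0
    rw [List.map_map]
    refine List.map_congr_left fun i _ => ?_
    have := (ha i).ne'
    simp only [Function.comp, div_div_div_cancel_right₀ hc.ne']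
  rw [e1, ← PU_fin n (fun i => a i / c) (fun i => 1 - Real.exp (-(t / a i))) 1]
  unfold PU Wt
  rw [Finset.powerset_univ]
  refine Finset.sum_congr rfl fun S _ => ?_
  have e2 : (∑ i ∈ S, a i / c < 1) ↔ (∑ i ∈ S, a i < c) := by
    rw [← Finset.sum_div, div_lt_one hc]
  have e3 : Finset.univ \ S = Sᶜ := by
    ext i; simp
  simp only [e2, e3, sub_sub_cancel]

end Pool.Agent.Q258.LT
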