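import Mathlib
import Pool.Agent.Q258.LT.Lim

/-!
# Inverse-weighted lottery: the probability space version
-/

set_option autoImplicit false

namespace Pool.Agent.Q258.LT

open Finset Filter Topology MeasureTheory ProbabilityTheory

theorem prob_ge {Ω : Type*} [MeasurableSpace Ω] (P : Measure Ω) [IsProbabilityMeasure P]
    (X : Ω → ℝ) (hexp : ∀ s : ℝ, 0 ≤ s → P.real {ω | s < X ω} = Real.exp (-s)) (s : ℝ) (hs : 0 < s) :
    P.real {ω | s ≤ X ω} = Real.exp (-s) := by
  apply le_antisymm
  · have c1 : Tendsto (fun u : ℝ => Real.exp (-u)) (𝓝[<] s) (𝓝 (Real.exp (-s))) := by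
      have : Continuous (fun u : ℝ => Real.exp (-u)) := by fun_prop
      exact (this.tendsto s).mono_left nhdsWithin_le_nhds
    refine ge_of_tendsto c1 ?_
    filter_upwards [Ioo_mem_nhdsLT hs] with u hu
    rw [← hexp u hu.1.le]
    exact measureReal_mono (fun ω hω => lt_of_lt_of_le hu.2 hω)
  · rw [← hexp s hs.le]
    exact measureReal_mono (fun ω (hω : s < X ω) => hω.le)

theorem prob_lt {Ω : Type*} [MeasurableSpace Ω] (P : Measure Ω) [IsProbabilityMeasure P]
    (X : Ω → ℝ) (hX : Measurable X)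
    (hexp : ∀ s : ℝ, 0 ≤ s → P.real {ω | s < X ω} = Real.exp (-s)) (s : ℝ) (hs : 0 < s) :
    P.real {ω | X ω < s} = 1 - Real.exp (-s) := by
  rw [← prob_ge P X hexp s hs]
  have : {ω | X ω < s} = {ω | s ≤ X ω}ᶜ := by
    ext ω; simp
  rw [this, probReal_compl_eq_one_sub (measurableSet_le measurable_const hX)]

/-- the cylinder of outcomes at which exactly the members of `S` are served before `t` -/
theorem prob_cyl {Ω : Type*} [MeasurableSpace Ω] (P : Measure Ω) [IsProbabilityMeasure P]
    (n : ℕ) (X : Fin n → Ω → ℝ) (hX : ∀ i, Measurable (X i)) (hind : iIndepFun X P)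
    (hexp : ∀ i, ∀ s : ℝ, 0 ≤ s → P.real {ω | s < X i ω} = Real.exp (-s))
    (a : Fin n → ℝ) (ha : ∀ i, 0 < a i) (t : ℝ) (ht : 0 < t) (S : Finset (Fin n)) :
    P.real {ω | ∀ i, a i * X i ω < t ↔ i ∈ S} =
      (∏ i ∈ S, (1 - Real.exp (-(t / a i)))) * ∏ i ∈ Sᶜ, Real.exp (-(t / a i)) := by
  have e1 : {ω | ∀ i, a i * X i ω < t ↔ i ∈ S} =
      ⋂ i ∈ (univ : Finset (Fin n)), X i ⁻¹' (if i ∈ S then Set.Iio (t / a i) else Set.Ici (t / a i)) := by
    ext ω
    simp only [Set.mem_ofPred_eq, Set.mem_iInter, Finset.mem_univ, true_imp_iff, Set.mem_preimage]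
    refine forall_congr' fun i => ?_
    have hi : a i * X i ω < t ↔ X i ω < t / a i := by
      rw [lt_div_iff₀ (ha i), mul_comm]
    rw [hi]
    by_cases h : i ∈ S
    · simp [h]
    · simp [h]
  have e2 := hind.measure_inter_preimage_eq_mul univ
    (sets := fun i => if i ∈ S then Set.Iio (t / a i) else Set.Ici (t / a i))
    (fun i _ => by
      by_cases h : i ∈ S
      · simp [h]
      · simp [h])
  rw [e1, measureReal_def, e2, ENNReal.toReal_prod, ← Finset.prod_mul_prod_compl S]
  congr 1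
  · refine Finset.prod_congr rfl fun i hi => ?_
    rw [if_pos hi, ← measureReal_def]
    exact prob_lt P (X i) (hX i) (hexp i) (t / a i) (div_pos ht (ha i))
  · refine Finset.prod_congr rfl fun i hi => ?_
    rw [if_neg (Finset.mem_compl.1 hi), ← measureReal_def]
    exact prob_ge P (X i) (hexp i) (t / a i) (div_pos ht (ha i))

theorem prob_main {Ω : Type*} [MeasurableSpace Ω] (P : Measure Ω) [IsProbabilityMeasure P]
    (n : ℕ) (hn : 1 ≤ n) (X : Fin n → Ω → ℝ) (hX : ∀ i, Measurable (X i)) (hind : iIndepFun X P)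
    (hexp : ∀ i, ∀ s : ℝ, 0 ≤ s → P.real {ω | s < X i ω} = Real.exp (-s))
    (a : Fin n → ℝ) (ha : ∀ i, 0 < a i) (c t : ℝ) (hc : 0 < c) (ht : 0 < t) (h : n * t ≤ c) :
    P.real {ω | c ≤ ∑ i, if a i * X i ω < t then a i else 0} ≤ 1 - Real.exp (-(n * t / c)) := by
  classical
  have hm : ∀ S : Finset (Fin n), MeasurableSet {ω | ∀ i, a i * X i ω < t ↔ i ∈ S} := by
    intro S
    have : {ω | ∀ i, a i * X i ω < t ↔ i ∈ S} = ⋂ i, {ω | a i * X i ω < t ↔ i ∈ S} := by
      ext ω; simp
    rw [this]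
    refine MeasurableSet.iInter fun i => ?_
    have h1 : MeasurableSet {ω | a i * X i ω < t} :=
      measurableSet_lt ((hX i).const_mul _) measurable_const
    by_cases hi : i ∈ S
    · simpa [hi] using h1
    · have : {ω | a i * X i ω < t ↔ i ∈ S} = {ω | a i * X i ω < t}ᶜ := by
        ext ω; simp [hi]
      rw [this]
      exact h1.compl
  have hU : {ω | ∑ i, (if a i * X i ω < t then a i else 0) < c} =
      ⋃ S ∈ (univ.filter (fun S : Finset (Fin n) => ∑ i ∈ S, a i < c)),
        {ω | ∀ i, a i * X i ω < t ↔ i ∈ S} := by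
    ext ω
    simp only [Set.mem_ofPred_eq, Set.mem_iUnion, Finset.mem_filter, Finset.mem_univ, true_and,
      exists_prop]
    constructor
    · intro hω
      refine ⟨univ.filter (fun i => a i * X i ω < t), ?_, ?_⟩
      · rwa [Finset.sum_filter]
      · intro i; simp
    · rintro ⟨S, hS, hω⟩
      have : ∑ i, (if a i * X i ω < t then a i else 0) = ∑ i ∈ S, a i := by
        rw [← Finset.sum_filter]
        congr 1
        ext i
        simp [hω i]
      rw [this]
      exact hS
  have hmu : MeasurableSet {ω | ∑ i, (if a i * X i ω < t then a i else 0) < c} := by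
    rw [hU]
    exact Finset.measurableSet_biUnion _ fun S _ => hm S
  have hsum : P.real {ω | ∑ i, (if a i * X i ω < t then a i else 0) < c} =
      ∑ S : Finset (Fin n), if ∑ i ∈ S, a i < c then
      (∏ i ∈ S, (1 - Real.exp (-(t / a i)))) * ∏ i ∈ Sᶜ, Real.exp (-(t / a i)) else 0 := by
    rw [hU, measureReal_biUnion_finset, ← Finset.sum_filter]
    · exact Finset.sum_congr rfl fun S _ => prob_cyl P n X hX hind hexp a ha t ht S
    · intro S _ T _ hST
      rw [Function.onFun, Set.disjoint_left]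
      intro ω h1 h2
      apply hST
      ext i
      exact (h1 i).symm.trans (h2 i)
    · exact fun S _ => hm S
  have hcompl : {ω | c ≤ ∑ i, if a i * X i ω < t then a i else 0} =
      {ω | ∑ i, (if a i * X i ω < t then a i else 0) < c}ᶜ := by
    ext ω; simp
  rw [hcompl, probReal_compl_eq_one_sub hmu, hsum]
  have := fin_exp n hn a ha c t hc ht h
  linarith

end Pool.Agent.Q258.LT
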